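import Pool.Agent.Helper34.CP.Goals
import Pool.Agent.Helper39.Uct.PF1
import Pool.Agent.Helper10.Uct.Sub

/-! # MP_d97caa_an: the basic facts on Cuntz-Pimsner systems (packet CP-BAS) -/

set_option autoImplicit false

namespace Pool.Agent.Helper67.CP

open Pool.Agent.Helper34.CP
open Pool.Agent.Helper39.Uct (Fib exists_au)
open Pool.Agent.Helper10.Uct (closure_map_mem closure_mul_mem closure_star_mem subalg mem_subalg)

variable {B : Type} [NonUnitalCStarAlgebra B] {E : ℕ → Submodule ℂ B}

/-- the generators of `BB E n` -/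
def gB (E : ℕ → Submodule ℂ B) (n : ℤ) : Set B :=
  {z : B | ∃ p q : ℕ, (p : ℤ) - q = n ∧ ∃ x ∈ E p, ∃ y ∈ E q, z = x * star y}

/-- the generators of `FF E m` -/
def gF (E : ℕ → Submodule ℂ B) (m : ℕ) : Set B :=
  {z : B | ∃ i ≤ m, ∃ x ∈ E i, ∃ y ∈ E i, z = x * star y}

/-- all generators -/
def gA (E : ℕ → Submodule ℂ B) : Set B :=
  {z : B | ∃ p q : ℕ, ∃ x ∈ E p, ∃ y ∈ E q, z = x * star y}

theorem BB_eq (n : ℤ) : BB E n = (Submodule.span ℂ (gB E n)).topologicalClosure := rfl

theorem FF_eq (m : ℕ) : FF E m = (Submodule.span ℂ (gF E m)).topologicalClosure := rfl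

theorem sub_BB {n : ℤ} {z : B} (hz : z ∈ gB E n) : z ∈ BB E n :=
  Submodule.le_topologicalClosure _ (Submodule.subset_span hz)

theorem sub_FF {m : ℕ} {z : B} (hz : z ∈ gF E m) : z ∈ FF E m :=
  Submodule.le_topologicalClosure _ (Submodule.subset_span hz)

theorem closed_BB (n : ℤ) : IsClosed (BB E n : Set B) := Submodule.isClosed_topologicalClosure _

theorem closed_FF (m : ℕ) : IsClosed (FF E m : Set B) := Submodule.isClosed_topologicalClosure _

theorem addE (hE : Sys E) {p q r : ℕ} (h : p + q = r) {x y : B} (hx : x ∈ E p) (hy : y ∈ E q) :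
    x * y ∈ E r := h ▸ hE.mul p q x hx y hy

theorem leftE (hE : Sys E) {p q r : ℕ} (h : r = p + q) {x y : B} (hx : x ∈ E p) (hy : y ∈ E r) :
    star x * y ∈ E q := hE.left p q x hx y (h ▸ hy)

/-- the product of two generators -/
theorem prodE (hE : Sys E) {p q p' q' : ℕ} {x y z w : B} (hx : x ∈ E p) (hy : y ∈ E q)
    (hz : z ∈ E p') (hw : w ∈ E q') :
    ∃ X ∈ E (p + (p' - q)), ∃ Y ∈ E (q' + (q - p')),
      (x * star y) * (z * star w) = X * star Y := by
  rcases le_total q p' with h | h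
  · refine ⟨x * (star y * z), hE.mul _ _ x hx _ (leftE hE (by omega) hy hz), w, ?_, ?_⟩
    · rw [Nat.sub_eq_zero_of_le h, Nat.add_zero]
      exact hw
    · simp only [mul_assoc]
  · refine ⟨x, ?_, w * (star z * y), hE.mul _ _ w hw _ (leftE hE (by omega) hz hy), ?_⟩
    · rw [Nat.sub_eq_zero_of_le h, Nat.add_zero]
      exact hx
    · simp only [star_mul, star_star, mul_assoc]

/-- the algebra `E 0` -/
def alg0 (hE : Sys E) : NonUnitalStarSubalgebra ℂ B :=
  subalg (E 0) (fun x hx y hy => hE.mul 0 0 x hx y hy) hE.star0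

/-- local right units -/
theorem unitE (hE : Sys E) {n : ℕ} {x : B} (hx : x ∈ E n) (ε : ℝ) (hε : 0 < ε) :
    ∃ u ∈ E 0, star u = u ∧ ‖x * u - x‖ < ε := by
  obtain ⟨e, he, hsa, _, h⟩ := exists_au (alg0 hE) (hE.closed 0) {star x}
    (by
      intro b hb
      rw [Finset.mem_singleton] at hb
      subst hb
      show star x * star (star x) ∈ E 0
      rw [star_star]
      exact leftE hE (by omega) hx hx) ε hε
  refine ⟨e, he, hsa, ?_⟩
  have h1 := h (star x) (Finset.mem_singleton_self _)
  have h2 : star (e * star x - star x) = x * e - x := by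
    rw [star_sub, star_mul, star_star, hsa.star_eq]
  rw [← h2, norm_star]
  exact h1

theorem mem_of_unit (hE : Sys E) {n : ℕ} {x : B} (hx : x ∈ E n) (N : Submodule ℂ B)
    (hN : IsClosed (N : Set B)) (h : ∀ u ∈ E 0, x * star u ∈ N) : x ∈ N := by
  have h1 : x ∈ closure (N : Set B) := by
    rw [Metric.mem_closure_iff]
    intro ε hε
    obtain ⟨u, hu, hsa, h2⟩ := unitE hE hx ε hε
    refine ⟨x * star u, h u hu, ?_⟩
    rw [hsa, dist_comm, dist_eq_norm]
    exact h2
  rwa [hN.closure_eq] at h1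

theorem ff_mul (hE : Sys E) (m : ℕ) : ∀ x ∈ FF E m, ∀ y ∈ FF E m, x * y ∈ FF E m := by
  refine closure_mul_mem (gF E m) (gF E m) (FF E m) (closed_FF m) ?_
  rintro _ ⟨i, hi, x, hx, y, hy, rfl⟩ _ ⟨k, hk, z, hz, w, hw, rfl⟩
  obtain ⟨X, hX, Y, hY, h⟩ := prodE hE hx hy hz hw
  rw [h]
  have h1 : k + (i - k) = i + (k - i) := by omega
  rw [h1] at hY
  exact sub_FF ⟨i + (k - i), by omega, X, hX, Y, hY, rfl⟩

theorem ff_star (m : ℕ) : ∀ x ∈ FF E m, star x ∈ FF E m := by
  refine closure_star_mem (gF E m) (gF E m) ?_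
  rintro _ ⟨i, hi, x, hx, y, hy, rfl⟩
  exact ⟨i, hi, y, hy, x, hx, by rw [star_mul, star_star]⟩

theorem gF_sub_gB (m : ℕ) : gF E m ⊆ gB E 0 := by
  rintro _ ⟨i, _, x, hx, y, hy, rfl⟩
  exact ⟨i, i, by omega, x, hx, y, hy, rfl⟩

theorem ff_e (hE : Sys E) (m l : ℕ) (hml : m ≤ l) : ∀ c ∈ FF E m, ∀ y ∈ E l, c * y ∈ E l := by
  intro c hc y hy
  refine closure_map_mem (gF E m) (E l) (hE.closed l) (LinearMap.mulRight ℂ y)
    (continuous_mul_const _) ?_ c hc
  rintro _ ⟨i, hi, x, hx, w, hw, rfl⟩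
  show (x * star w) * y ∈ E l
  rw [mul_assoc]
  exact addE hE (p := i) (q := l - i) (by omega) hx (leftE hE (by omega) hw hy)

theorem bb_mul (hE : Sys E) (m n : ℤ) : ∀ x ∈ BB E m, ∀ y ∈ BB E n, x * y ∈ BB E (m + n) := by
  refine closure_mul_mem (gB E m) (gB E n) (BB E (m + n)) (closed_BB _) ?_
  rintro _ ⟨p, q, h1, x, hx, y, hy, rfl⟩ _ ⟨p', q', h2, z, hz, w, hw, rfl⟩
  obtain ⟨X, hX, Y, hY, h⟩ := prodE hE hx hy hz hw
  rw [h]
  exact sub_BB ⟨_, _, by omega, X, hX, Y, hY, rfl⟩

theorem bb_star (n : ℤ) : ∀ x ∈ BB E n, star x ∈ BB E (-n) := by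
  refine closure_star_mem (gB E n) (gB E (-n)) ?_
  rintro _ ⟨p, q, h1, x, hx, y, hy, rfl⟩
  exact ⟨q, p, by omega, y, hy, x, hx, by rw [star_mul, star_star]⟩

theorem all_top (hE : Sys E) : (Submodule.span ℂ (gA E)).topologicalClosure = ⊤ := by
  have hcl : IsClosed ((Submodule.span ℂ (gA E)).topologicalClosure : Set B) :=
    Submodule.isClosed_topologicalClosure _
  have hmul : ∀ x ∈ (Submodule.span ℂ (gA E)).topologicalClosure,
      ∀ y ∈ (Submodule.span ℂ (gA E)).topologicalClosure,
        x * y ∈ (Submodule.span ℂ (gA E)).topologicalClosure := by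
    refine closure_mul_mem (gA E) (gA E) _ hcl ?_
    rintro _ ⟨p, q, x, hx, y, hy, rfl⟩ _ ⟨p', q', z, hz, w, hw, rfl⟩
    obtain ⟨X, hX, Y, hY, h⟩ := prodE hE hx hy hz hw
    rw [h]
    exact Submodule.le_topologicalClosure _ (Submodule.subset_span ⟨_, _, X, hX, Y, hY, rfl⟩)
  have hstar : ∀ x ∈ (Submodule.span ℂ (gA E)).topologicalClosure,
      star x ∈ (Submodule.span ℂ (gA E)).topologicalClosure := by
    refine closure_star_mem (gA E) (gA E) ?_
    rintro _ ⟨p, q, x, hx, y, hy, rfl⟩
    exact ⟨q, p, y, hy, x, hx, by rw [star_mul, star_star]⟩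
  rw [eq_top_iff]
  intro b _
  have h := hE.gen (subalg _ hmul hstar) hcl ?_ b
  · exact h
  · intro n x hx
    rw [mem_subalg]
    refine mem_of_unit hE hx _ hcl fun u hu => ?_
    exact Submodule.le_topologicalClosure _ (Submodule.subset_span ⟨n, 0, x, hx, u, hu, rfl⟩)

theorem bb_dense (hE : Sys E) :
    (⨆ q : Multiplicative ℤ, BB E (Multiplicative.toAdd q)).topologicalClosure = ⊤ := by
  rw [eq_top_iff, ← all_top hE]
  apply Submodule.topologicalClosure_mono
  rw [Submodule.span_le]
  rintro _ ⟨p, q, x, hx, y, hy, rfl⟩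
  exact (le_iSup (fun q : Multiplicative ℤ => BB E (Multiplicative.toAdd q))
    (Multiplicative.ofAdd ((p : ℤ) - q)))
    (sub_BB ⟨p, q, rfl, x, hx, y, hy, rfl⟩)

/-- elements of the span of the generators of degree zero -/
theorem span_zero {z : B} (hz : z ∈ Submodule.span ℂ (gB E 0)) :
    ∃ m, z ∈ Submodule.span ℂ (gF E m) := by
  induction hz using Submodule.span_induction with
  | mem x hx =>
    obtain ⟨p, q, h, x, hx, y, hy, rfl⟩ := hx
    have hpq : q = p := by omega
    subst hpq
    exact ⟨q, Submodule.subset_span ⟨q, le_rfl, x, hx, y, hy, rfl⟩⟩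
  | zero => exact ⟨0, Submodule.zero_mem _⟩
  | add x y _ _ hx hy =>
    obtain ⟨m, hm⟩ := hx
    obtain ⟨n, hn⟩ := hy
    refine ⟨max m n, Submodule.add_mem _ ?_ ?_⟩
    · refine Submodule.span_mono ?_ hm
      rintro _ ⟨i, hi, w⟩
      exact ⟨i, hi.trans (le_max_left _ _), w⟩
    · refine Submodule.span_mono ?_ hn
      rintro _ ⟨i, hi, w⟩
      exact ⟨i, hi.trans (le_max_right _ _), w⟩
  | smul c x _ hx =>
    obtain ⟨m, hm⟩ := hx
    exact ⟨m, Submodule.smul_mem _ _ hm⟩

theorem span_pos (hE : Sys E) {j : ℕ} {z : B} (hz : z ∈ Submodule.span ℂ (gB E (j : ℤ))) :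
    ∃ m : ℕ, ∀ l, m ≤ l → ∀ y ∈ E l, star y * z * y ∈ E j := by
  induction hz using Submodule.span_induction with
  | mem x hx =>
    obtain ⟨p, q, h, x, hx, w, hw, rfl⟩ := hx
    refine ⟨q, fun l hl y hy => ?_⟩
    have h1 : star w * y ∈ E (l - q) := leftE hE (by omega) hw hy
    have h2 : x * (star w * y) ∈ E (l + j) := addE hE (by omega) hx h1
    have h3 : star y * (x * (star w * y)) ∈ E j := leftE hE rfl hy h2
    have h4 : star y * (x * star w) * y = star y * (x * (star w * y)) := by
      simp only [mul_assoc]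
    rw [h4]
    exact h3
  | zero =>
    refine ⟨0, fun l _ y _ => ?_⟩
    rw [mul_zero, zero_mul]
    exact Submodule.zero_mem _
  | add a b _ _ ha hb =>
    obtain ⟨m, hm⟩ := ha
    obtain ⟨n, hn⟩ := hb
    refine ⟨max m n, fun l hl y hy => ?_⟩
    rw [mul_add, add_mul]
    exact Submodule.add_mem _ (hm l ((le_max_left _ _).trans hl) y hy)
      (hn l ((le_max_right _ _).trans hl) y hy)
  | smul c a _ ha =>
    obtain ⟨m, hm⟩ := ha
    refine ⟨m, fun l hl y hy => ?_⟩
    rw [mul_smul_comm, smul_mul_assoc]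
    exact Submodule.smul_mem _ _ (hm l hl y hy)

theorem span_neg (hE : Sys E) {j : ℕ} {z : B} (hz : z ∈ Submodule.span ℂ (gB E (-(j : ℤ)))) :
    ∃ m : ℕ, ∀ l, m ≤ l → ∀ y ∈ E l, star (star y * z * y) ∈ E j := by
  have hz' : star z ∈ Submodule.span ℂ (gB E (j : ℤ)) := by
    induction hz using Submodule.span_induction with
    | mem x hx =>
      obtain ⟨p, q, h, x, hx, w, hw, rfl⟩ := hx
      exact Submodule.subset_span ⟨q, p, by omega, w, hw, x, hx, by rw [star_mul, star_star]⟩
    | zero => rw [star_zero]; exact Submodule.zero_mem _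
    | add a b _ _ ha hb => rw [star_add]; exact Submodule.add_mem _ ha hb
    | smul c a _ ha => rw [star_smul]; exact Submodule.smul_mem _ _ ha
  obtain ⟨m, hm⟩ := span_pos hE hz'
  refine ⟨m, fun l hl y hy => ?_⟩
  have h1 := hm l hl y hy
  have h2 : star (star y * z * y) = star y * star z * y := by
    simp only [star_mul, star_star, mul_assoc]
  rw [h2]
  exact h1

theorem approx {S : Set B} {z : B} (hz : z ∈ (Submodule.span ℂ S).topologicalClosure) (ε : ℝ)
    (hε : 0 < ε) : ∃ z' ∈ Submodule.span ℂ S, ‖z - z'‖ < ε := by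
  have h1 : z ∈ closure ((Submodule.span ℂ S : Submodule ℂ B) : Set B) := hz
  rw [Metric.mem_closure_iff] at h1
  obtain ⟨z', h2, h3⟩ := h1 ε hε
  exact ⟨z', h2, by rwa [dist_eq_norm] at h3⟩

theorem bas : S_BAS := by
  intro B _ E hE
  exact
    { ffMono := by
        intro m n hmn
        apply Submodule.topologicalClosure_mono
        apply Submodule.span_mono
        rintro _ ⟨i, hi, w⟩
        exact ⟨i, hi.trans hmn, w⟩
      ffMul := ff_mul hE
      ffStar := ff_star
      ffBB := fun m => Submodule.topologicalClosure_mono (Submodule.span_mono (gF_sub_gB m))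
      ffZero := by
        apply le_antisymm
        · refine Submodule.topologicalClosure_minimal _ ?_ (hE.closed 0)
          rw [Submodule.span_le]
          rintro _ ⟨i, hi, x, hx, y, hy, rfl⟩
          have hi0 : i = 0 := by omega
          subst hi0
          exact hE.mul 0 0 x hx _ (hE.star0 y hy)
        · intro x hx
          exact mem_of_unit hE hx _ (closed_FF 0) fun u hu => sub_FF ⟨0, le_rfl, x, hx, u, hu, rfl⟩
      ffE := ff_e hE
      kk := fun i m him x hx y hy => sub_FF ⟨i, him, x, hx, y, hy, rfl⟩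
      ffSucc := by
        intro m
        apply le_antisymm
        · refine Submodule.topologicalClosure_mono ?_
          rw [Submodule.span_le]
          rintro _ ⟨i, hi, x, hx, y, hy, rfl⟩
          rcases Nat.lt_or_ge i (m + 1) with h | h
          · exact (le_sup_left : FF E m ≤ _) (sub_FF ⟨i, by omega, x, hx, y, hy, rfl⟩)
          · have hi1 : i = m + 1 := by omega
            subst hi1
            exact (le_sup_right : Submodule.span ℂ {z : B | ∃ x ∈ E (m + 1),
              ∃ y ∈ E (m + 1), z = x * star y} ≤ _)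
              (Submodule.subset_span ⟨x, hx, y, hy, rfl⟩)
        · refine Submodule.topologicalClosure_minimal _ (sup_le ?_ ?_) (closed_FF (m + 1))
          · apply Submodule.topologicalClosure_mono
            apply Submodule.span_mono
            rintro _ ⟨i, hi, w⟩
            exact ⟨i, by omega, w⟩
          · rw [Submodule.span_le]
            rintro _ ⟨x, hx, y, hy, rfl⟩
            exact sub_FF ⟨m + 1, le_rfl, x, hx, y, hy, rfl⟩
      sand := by
        intro l j x hx y hy z hz
        rw [mul_assoc]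
        exact leftE hE (p := l) (q := j) rfl hy (addE hE (by omega) hx hz)
      sandF := by
        intro m l hml c hc y hy z hz
        rw [mul_assoc]
        exact leftE hE (p := l) (q := 0) rfl hy (ff_e hE m l hml c hc z hz)
      gr := ⟨{ fib := fun q => BB E (Multiplicative.toAdd q)
               closed := fun q => closed_BB _
               mul_mem := fun p q x y hx hy => bb_mul hE _ _ x hx y hy
               star_mem := fun q x hx => bb_star _ x hx
               dense := bb_dense hE }, fun q => rfl⟩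
      apx0 := by
        intro z hz ε hε
        obtain ⟨z', h1, h2⟩ := approx hz ε hε
        obtain ⟨m, hm⟩ := span_zero h1
        exact ⟨m, z', Submodule.le_topologicalClosure _ hm, h2⟩
      apx := by
        intro q hq z hz ε hε
        obtain ⟨z', h1, h2⟩ := approx hz ε hε
        rcases lt_or_gt_of_ne hq with h | h
        · obtain ⟨j, hj⟩ := Int.eq_ofNat_of_zero_le (show 0 ≤ -q by omega)
          have hq' : q = -(j : ℤ) := by omega
          subst hq'
          obtain ⟨m, hm⟩ := span_neg hE h1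
          exact ⟨m, j, z', by omega, h2, fun l hl y hy => Or.inr (hm l hl y hy)⟩
        · obtain ⟨j, hj⟩ := Int.eq_ofNat_of_zero_le h.le
          subst hj
          obtain ⟨m, hm⟩ := span_pos hE h1
          exact ⟨m, j, z', by omega, h2, fun l hl y hy => Or.inl (hm l hl y hy)⟩ }

end Pool.Agent.Helper67.CP
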